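import Pool.Agent.H71.BS.Final

/-!
# Smooth ergodic invariant measures for all generalized Bowen–Series boundary maps
-/

namespace Pool.Agent.Results.MP_4c61e7_an.SmoothErgodic

open MeasureTheory Pool.H71.BS

/-- For every genus `g ≥ 2`, every canonical polygon `F` and every multi-parameter `A`
(`A k = e^{i a k} ∈ [P k, Q k]`), there is exactly one boundary map `f = f_A`; it has an ergodic
invariant probability measure `μ` which is equivalent to Lebesgue measure on the circle, and `μ`
is the only `f`-invariant probability measure absolutely continuous with respect to Lebesgue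
measure. -/
theorem result (g : ℕ) (hg : 2 ≤ g) (F : CanonicalPolygon g) (a : ℤ → ℝ)
    (ha : F.IsMultiParameter a) :
    ∃ f : Circle → Circle, F.IsBoundaryMap a f ∧ (∀ f', F.IsBoundaryMap a f' → f' = f) ∧
      ∃ μ : Measure Circle, IsProbabilityMeasure μ ∧ μ ≪ arcLength ∧ arcLength ≪ μ ∧
        Ergodic f μ ∧ ∀ ν : Measure Circle, IsProbabilityMeasure ν → ν ≪ arcLength →
          MeasurePreserving f ν ν → ν = μ :=
  main g hg F a ha

end Pool.Agent.Results.MP_4c61e7_an.SmoothErgodic
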